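import Mathlib
import Pool.Agent.H15.Cyc.Levels
import Pool.Agent.H15.Asc.Nu3

set_option autoImplicit false

/-!
High precision values of `log 2`, `log 3`, one-sided lower bounds for `s log 2 - k log 3`.
-/

namespace Pool.Agent.H15.Asc4

open Finset
open Pool.Agent.H15.Cyc (vals cf')

theorem log89 : |Real.log (8 / 9) + 0.1177830356563834545387941094705217050685| ≤ 1 / 10 ^ 36 := by
  have z := Real.abs_log_sub_add_sum_range_le (x := 1 / 9) (by norm_num) 42
  rw [show (1 - (1 : ℝ) / 9) = 8 / 9 by norm_num, show |(1 : ℝ) / 9| = 1 / 9 by norm_num] at z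
  have w : |∑ i ∈ range 42, ((1 : ℝ) / 9) ^ (i + 1) / (i + 1) -
      0.1177830356563834545387941094705217050685| ≤ 1 / (2 * 10 ^ 36) := by
    norm_num [sum_range_succ]
  have e : Real.log (8 / 9) + 0.1177830356563834545387941094705217050685 =
      (∑ i ∈ range 42, ((1 : ℝ) / 9) ^ (i + 1) / (i + 1) + Real.log (8 / 9)) -
      (∑ i ∈ range 42, ((1 : ℝ) / 9) ^ (i + 1) / (i + 1) -
        0.1177830356563834545387941094705217050685) := by ring
  rw [e]
  refine (abs_sub _ _).trans ((add_le_add z w).trans ?_)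
  norm_num

theorem log34 : |Real.log (3 / 4) + 0.2876820724517809274392190059938274315035| ≤ 1 / 10 ^ 36 := by
  have z := Real.abs_log_sub_add_sum_range_le (x := 1 / 4) (by norm_num) 66
  rw [show (1 - (1 : ℝ) / 4) = 3 / 4 by norm_num, show |(1 : ℝ) / 4| = 1 / 4 by norm_num] at z
  have w : |∑ i ∈ range 66, ((1 : ℝ) / 4) ^ (i + 1) / (i + 1) -
      0.2876820724517809274392190059938274315035| ≤ 1 / (2 * 10 ^ 36) := by
    norm_num [sum_range_succ]
  have e : Real.log (3 / 4) + 0.2876820724517809274392190059938274315035 =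
      (∑ i ∈ range 66, ((1 : ℝ) / 4) ^ (i + 1) / (i + 1) + Real.log (3 / 4)) -
      (∑ i ∈ range 66, ((1 : ℝ) / 4) ^ (i + 1) / (i + 1) -
        0.2876820724517809274392190059938274315035) := by ring
  rw [e]
  refine (abs_sub _ _).trans ((add_le_add z w).trans ?_)
  norm_num

theorem hp : |Real.log 2 - 0.693147180559945309417232121458176568| ≤ 4 / 10 ^ 36 ∧
    |Real.log 3 - 1.098612288668109691395245236922525705| ≤ 8 / 10 ^ 36 := by
  have h1 := abs_le.1 log89
  have h2 := abs_le.1 log34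
  have e1 : Real.log (8 / 9) = 3 * Real.log 2 - 2 * Real.log 3 := by
    rw [show (8 : ℝ) / 9 = 2 ^ 3 / 3 ^ 2 by norm_num, Real.log_div (by norm_num) (by norm_num),
      Real.log_pow, Real.log_pow]; push_cast; ring
  have e2 : Real.log (3 / 4) = Real.log 3 - 2 * Real.log 2 := by
    rw [show (3 : ℝ) / 4 = 3 / 2 ^ 2 by norm_num, Real.log_div (by norm_num) (by norm_num),
      Real.log_pow]; push_cast; ring
  rw [e1] at h1
  rw [e2] at h2
  obtain ⟨h1a, h1b⟩ := h1
  obtain ⟨h2a, h2b⟩ := h2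
  norm_num at h1a h1b h2a h2b ⊢
  constructor
  · rw [abs_le]; constructor <;> linarith
  · rw [abs_le]; constructor <;> linarith

theorem hp' : (0.69314718055994530941723212145817656 ≤ Real.log 2 ∧
      Real.log 2 ≤ 0.69314718055994530941723212145817658) ∧
    (1.09861228866810969139524523692252569 ≤ Real.log 3 ∧
      Real.log 3 ≤ 1.09861228866810969139524523692252572) := by
  obtain ⟨h1, h2⟩ := hp
  rw [abs_le] at h1 h2
  obtain ⟨h1a, h1b⟩ := h1
  obtain ⟨h2a, h2b⟩ := h2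
  norm_num at h1a h1b h2a h2b ⊢
  refine ⟨⟨?_, ?_⟩, ⟨?_, ?_⟩⟩ <;> linarith

theorem lev_0 (p o : ℤ) (hp : 0 < p) (hp2 : p < 16785921) :
    (64507 / 10 ^ 12 : ℝ) ≤ |(p : ℝ) * Real.log 2 - o * Real.log 3| := by
  obtain ⟨⟨h1, h2⟩, ⟨h3, h4⟩⟩ := vals
  have hA : (64507 / 10 ^ 12 : ℝ) ≤ (((301994 : ℤ) : ℝ)) * Real.log 2 - (((190537 : ℤ) : ℝ)) * Real.log 3 := by
    push_cast; norm_num; linarith
  have hB : (0 : ℝ) < (((10590737 : ℤ) : ℝ)) * Real.log 3 - (((16785921 : ℤ) : ℝ)) * Real.log 2 := by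
    push_cast; linarith
  exact hA.trans (Pool.Agent.H15.Lin.Form.cf (by norm_num) (by norm_num) (by norm_num)
    (lt_of_lt_of_le (by norm_num) hA) hB p o hp hp2)

theorem lev_h (p o : ℤ) (hp : 0 < p) (hp2 : p < 766512153894657) :
    (13337 / 10 ^ 19 : ℝ) ≤ |(p : ℝ) * Real.log 2 - o * Real.log 3| := by
  obtain ⟨⟨h1, h2⟩, ⟨h3, h4⟩⟩ := hp'
  have hA : (13337 / 10 ^ 19 : ℝ) ≤ (((683381996816440 : ℤ) : ℝ)) * Real.log 2 -
      (((431166034846567 : ℤ) : ℝ)) * Real.log 3 := by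
    push_cast; norm_num; linarith
  have hB : (0 : ℝ) < (((483615324366283 : ℤ) : ℝ)) * Real.log 3 -
      (((766512153894657 : ℤ) : ℝ)) * Real.log 2 := by
    push_cast; linarith
  exact hA.trans (Pool.Agent.H15.Lin.Form.cf (by norm_num) (by norm_num) (by norm_num)
    (lt_of_lt_of_le (by norm_num) hA) hB p o hp hp2)

/-- one-sided best approximation -/
theorem one_sided {q1 r1 q2 r2 : ℤ} (hdet : q1 * r2 - q2 * r1 = 1) (hr1 : 0 < r1) (hr2 : 0 < r2)
    (hA : 0 < (q1 : ℝ) * Real.log 2 - r1 * Real.log 3)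
    (hB : 0 < (r2 : ℝ) * Real.log 3 - q2 * Real.log 2) (s k : ℤ) (hk : 0 < k) (hk2 : k < r1 + r2)
    (hpos : 0 < (s : ℝ) * Real.log 2 - k * Real.log 3) :
    (q1 : ℝ) * Real.log 2 - r1 * Real.log 3 ≤ (s : ℝ) * Real.log 2 - k * Real.log 3 := by
  obtain ⟨x, hx⟩ : ∃ x, x = s * r2 - k * q2 := ⟨_, rfl⟩
  obtain ⟨y, hy⟩ : ∃ y, y = q1 * k - r1 * s := ⟨_, rfl⟩
  have e1 : s = q1 * x + q2 * y := by
    rw [hx, hy]; linear_combination (-s) * hdet
  have e2 : k = r1 * x + r2 * y := by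
    rw [hx, hy]; linear_combination (-k) * hdet
  set A := (q1 : ℝ) * Real.log 2 - r1 * Real.log 3 with hAd
  set B := (r2 : ℝ) * Real.log 3 - q2 * Real.log 2 with hBd
  have e : (s : ℝ) * Real.log 2 - k * Real.log 3 = x * A - y * B := by
    rw [e1, e2, hAd, hBd]; push_cast; ring
  rw [e] at hpos ⊢
  have hx1 : 1 ≤ x := by
    by_contra hcon
    push Not at hcon
    have h1 : x ≤ 0 := by omega
    have h1' : (x : ℝ) ≤ 0 := by exact_mod_cast h1
    have h2 : y < 0 := by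
      by_contra hc
      push Not at hc
      have hc' : (0 : ℝ) ≤ y := by exact_mod_cast hc
      have := mul_nonpos_of_nonpos_of_nonneg h1' hA.le
      have := mul_nonneg hc' hB.le
      linarith
    nlinarith
  have hy0 : y ≤ 0 := by
    by_contra hcon
    push Not at hcon
    nlinarith
  have hx' : (1 : ℝ) ≤ x := by exact_mod_cast hx1
  have hy' : (y : ℝ) ≤ 0 := by exact_mod_cast hy0
  have h1 := mul_nonpos_of_nonpos_of_nonneg hy' hB.le
  nlinarith

/-- a lower bound for the positive values of `s log 2 - k log 3`, `k ≤ K` -/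
def Th (K : ℕ) (θ : ℝ) : Prop := ∀ k s : ℕ, 1 ≤ k → k ≤ K →
  0 < (s : ℝ) * Real.log 2 - k * Real.log 3 → θ ≤ (s : ℝ) * Real.log 2 - k * Real.log 3

theorem Th.of {q1 r1 q2 r2 : ℤ} {K : ℕ} {θ : ℝ} (hdet : q1 * r2 - q2 * r1 = 1) (hr1 : 0 < r1)
    (hr2 : 0 < r2) (hK : (K : ℤ) < r1 + r2) (hθ : 0 < θ)
    (hA : θ ≤ (q1 : ℝ) * Real.log 2 - r1 * Real.log 3)
    (hB : 0 < (r2 : ℝ) * Real.log 3 - q2 * Real.log 2) : Th K θ := by
  intro k s hk hkK hpos
  have := one_sided hdet hr1 hr2 (hθ.trans_le hA) hB (s : ℤ) (k : ℤ) (by omega) (by omega)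
    (by push_cast; exact hpos)
  push_cast at this
  exact hA.trans this

theorem th40 : Th 40 0.02501 := by
  obtain ⟨⟨h1, h2⟩, ⟨h3, h4⟩⟩ := vals
  refine Th.of (q1 := 46) (r1 := 29) (q2 := 19) (r2 := 12) (by norm_num) (by norm_num)
    (by norm_num) (by norm_num) (by norm_num) ?_ ?_ <;> push_cast <;> linarith

theorem th93 : Th 93 0.01146 := by
  obtain ⟨⟨h1, h2⟩, ⟨h3, h4⟩⟩ := vals
  refine Th.of (q1 := 65) (r1 := 41) (q2 := 84) (r2 := 53) (by norm_num) (by norm_num)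
    (by norm_num) (by norm_num) (by norm_num) ?_ ?_ <;> push_cast <;> linarith

theorem th199 : Th 199 0.007286 := by
  obtain ⟨⟨h1, h2⟩, ⟨h3, h4⟩⟩ := vals
  refine Th.of (q1 := 233) (r1 := 147) (q2 := 84) (r2 := 53) (by norm_num) (by norm_num)
    (by norm_num) (by norm_num) (by norm_num) ?_ ?_ <;> push_cast <;> linarith

theorem th252 : Th 252 0.005198 := by
  obtain ⟨⟨h1, h2⟩, ⟨h3, h4⟩⟩ := vals
  refine Th.of (q1 := 317) (r1 := 200) (q2 := 84) (r2 := 53) (by norm_num) (by norm_num)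
    (by norm_num) (by norm_num) (by norm_num) ?_ ?_ <;> push_cast <;> linarith

theorem th970 : Th 970 0.001022 := by
  obtain ⟨⟨h1, h2⟩, ⟨h3, h4⟩⟩ := vals
  refine Th.of (q1 := 485) (r1 := 306) (q2 := 1054) (r2 := 665) (by norm_num) (by norm_num)
    (by norm_num) (by norm_num) (by norm_num) ?_ ?_ <;> push_cast <;> linarith

theorem th47467 : Th 47467 0.00001819 := by
  obtain ⟨⟨h1, h2⟩, ⟨h3, h4⟩⟩ := vals
  refine Th.of (q1 := 24727) (r1 := 15601) (q2 := 50508) (r2 := 31867) (by norm_num) (by norm_num)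
    (by norm_num) (by norm_num) (by norm_num) ?_ ?_ <;> push_cast <;> linarith

theorem th10M : Th 10781273 (645 / 10 ^ 10) := by
  obtain ⟨⟨h1, h2⟩, ⟨h3, h4⟩⟩ := vals
  refine Th.of (q1 := 301994) (r1 := 190537) (q2 := 16785921) (r2 := 10590737) (by norm_num)
    (by norm_num) (by norm_num) (by norm_num) (by norm_num) ?_ ?_ <;> push_cast <;> norm_num <;>
    linarith

open Pool.Agent.H15.Asc (nu3 nu3_anti nu3_low)

theorem thGen (K : ℕ) : Th K (nu3 K) := by
  intro k s hk hkK hpos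
  have hk1 : (1 : ℝ) ≤ k := by exact_mod_cast hk
  have h1 := nu3_low k s hk
  rw [abs_of_pos hpos] at h1
  exact (nu3_anti hk1 (by exact_mod_cast hkK)).trans h1

theorem log_le_lin (k B C : ℝ) (hk : 0 < k) (hB : 0 < B) (hC : Real.log B ≤ C) :
    Real.log k ≤ k / B + C := by
  have h1 := Real.log_le_sub_one_of_pos (show 0 < k / B by positivity)
  rw [Real.log_div hk.ne' hB.ne'] at h1
  linarith

/-- `nu3` in exponential form -/
theorem nu3_exp (k : ℝ) (hk : 1 ≤ k) : Real.exp (-(0.05 * k + 600)) ≤ nu3 k := by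
  obtain ⟨⟨v1, v2⟩, ⟨v3, v4⟩⟩ := vals
  have h1 : Real.log (nu3 k) = -(13 * Real.log 2 + 49 * (Real.log 86 + Real.log k)) := by
    unfold nu3
    rw [Real.log_div (by norm_num) (by positivity), Real.log_one, Real.log_mul (by positivity)
      (by positivity), Real.log_pow, Real.log_pow, Real.log_mul (by norm_num) (by positivity)]
    push_cast; ring
  have h2 : Real.log 86 ≤ 4.86 := by
    have h3 : Real.log 86 ≤ Real.log (2 ^ 7) := Real.log_le_log (by norm_num) (by norm_num)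
    rw [Real.log_pow] at h3
    push_cast at h3
    linarith
  have h3 : Real.log 1000 ≤ 6.94 := by
    have h3 : Real.log 1000 ≤ Real.log (2 ^ 10) := Real.log_le_log (by norm_num) (by norm_num)
    rw [Real.log_pow] at h3
    push_cast at h3
    linarith
  have h4 := log_le_lin k 1000 6.94 (by linarith) (by norm_num) h3
  rw [← Real.le_log_iff_exp_le (Pool.Agent.H15.Asc.nu3_pos hk), h1]
  linarith

end Pool.Agent.H15.Asc4
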