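import Mathlib
import Pool.Agent.H15.Asc4.Table
import Pool.Agent.H15.Cyc.Final

set_option autoImplicit false

/-!
One circuit: from a local minimum to the next one.
-/

namespace Pool.Agent.H15.Asc4

open Pool.Agent.H15.Cyc (vals log_ratio_lt growth)
open Pool.Agent.H15.Asc (nu3 nu3_anti nu3_low)

/-- a circuit from `n` to `n'` with `k` odd and `l` even elements -/
structure Blk (n n' : ℝ) (k l : ℕ) : Prop where
  big : 2900000000 ≤ n
  big' : 2900000000 ≤ n'
  k1 : 1 ≤ k
  l1 : 1 ≤ l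
  two : (2 : ℝ) ^ k ≤ n + 1
  up : 2 ^ (k + l) * n' ≤ 3 ^ k * (n + 1)
  lo : 3 ^ k * (n - 1) ≤ 2 ^ (k + l) * n'

/-- the linear form of the circuit -/
noncomputable def DD (k l : ℕ) : ℝ := ((k : ℝ) + l) * Real.log 2 - k * Real.log 3

/-- the potential -/
noncomputable def G (x : ℝ) : ℝ := 39.6 / x + 6.5 / 10 ^ 5 / Real.sqrt x

namespace Blk

variable {n n' : ℝ} {k l : ℕ}

theorem log_up (h : Blk n n' k l) : Real.log n' ≤ Real.log (n + 1) - DD k l := by
  have h1 := h.big
  have h2 := h.big'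
  have h3 := Real.log_le_log (by positivity) h.up
  rw [Real.log_mul (by positivity) (by linarith), Real.log_mul (by positivity) (by linarith),
    Real.log_pow, Real.log_pow] at h3
  push_cast at h3
  unfold DD
  linarith

theorem log_lo (h : Blk n n' k l) : Real.log (n - 1) - DD k l ≤ Real.log n' := by
  have h1 := h.big
  have h2 := h.big'
  have h3 := Real.log_le_log (mul_pos (by positivity) (by linarith)) h.lo
  rw [Real.log_mul (by positivity) (by linarith), Real.log_mul (by positivity) (by linarith),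
    Real.log_pow, Real.log_pow] at h3
  push_cast at h3
  unfold DD
  linarith

theorem log_succ (x : ℝ) (hx : 1 ≤ x) : Real.log (x + 1) ≤ Real.log x + 1 / x := by
  have h1 := Real.log_le_sub_one_of_pos (show 0 < (x + 1) / x by positivity)
  rw [Real.log_div (by linarith) (by linarith)] at h1
  have h2 : (x + 1) / x - 1 = 1 / x := by field_simp; ring
  linarith

theorem log_pred (x : ℝ) (hx : 2 ≤ x) : Real.log x - 1 / (x - 1) ≤ Real.log (x - 1) := by
  have h1 := log_succ (x - 1) (by linarith)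
  rw [sub_add_cancel] at h1
  linarith

theorem inv_pred (h : Blk n n' k l) : 1 / (n - 1) ≤ 1.00001 / n := by
  have h1 := h.big
  rw [div_le_div_iff₀ (by linarith) (by linarith)]
  linarith

theorem form (h : Blk n n' k l) : |Real.log n' - Real.log n + DD k l| ≤ 1.00001 / n := by
  have h1 := h.big
  have h2 := h.log_up
  have h3 := h.log_lo
  have h4 := log_succ n (by linarith)
  have h5 := log_pred n (by linarith)
  have h6 := h.inv_pred
  have h7 : 1 / n ≤ 1.00001 / n := div_le_div_of_nonneg_right (by norm_num) (by linarith)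
  rw [abs_le]
  constructor <;> linarith

theorem cf2' (h : Blk n n' k l) (hs : k + l < 50508) : 0.000018 ≤ |DD k l| := by
  have h1 := Pool.Agent.H15.Lin.Form.cf2 ((k + l : ℕ) : ℤ) (k : ℤ) (by have := h.k1; omega) (by omega)
  push_cast at h1
  exact h1

theorem k_large (hs : 50508 ≤ k + l) (hD : DD k l ≤ 1) : 31000 ≤ k := by
  obtain ⟨⟨v1, v2⟩, ⟨v3, v4⟩⟩ := vals
  by_contra hcon
  push Not at hcon
  have h1 : (50508 : ℝ) ≤ (k : ℝ) + l := by exact_mod_cast hs
  have h2 : (k : ℝ) ≤ 31000 := by exact_mod_cast hcon.le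
  unfold DD at hD
  have h3 : (50508 : ℝ) * Real.log 2 ≤ ((k : ℝ) + l) * Real.log 2 :=
    mul_le_mul_of_nonneg_right h1 (by linarith)
  have h4 : (k : ℝ) * Real.log 3 ≤ 31000 * Real.log 3 := mul_le_mul_of_nonneg_right h2 (by linarith)
  linarith

/-- the size of an element at which a long run starts -/
theorem log_ge (h : Blk n n' k l) : ((k : ℝ) - 1) * 0.6931 ≤ Real.log (n - 1) := by
  obtain ⟨⟨v1, v2⟩, ⟨v3, v4⟩⟩ := vals
  have h1 := h.big
  obtain ⟨j, rfl⟩ : ∃ j, k = j + 1 := ⟨k - 1, by have := h.k1; omega⟩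
  rcases Nat.lt_or_ge j 1 with hj | hj
  · have hj0 : j = 0 := by omega
    subst hj0
    push_cast
    have := Real.log_nonneg (show 1 ≤ n - 1 by linarith)
    linarith
  · have h2 := h.two
    have h3 : (2 : ℝ) ^ 1 ≤ 2 ^ j := pow_le_pow_right₀ (by norm_num) hj
    rw [pow_succ] at h2
    have h4 : (2 : ℝ) ^ j ≤ n - 1 := by linarith
    have h5 := Real.log_le_log (by positivity) h4
    rw [Real.log_pow] at h5
    have h6 : (0 : ℝ) ≤ j := Nat.cast_nonneg _
    push_cast
    nlinarith

theorem D_pos (h : Blk n n' k l) (hle : n' ≤ n) : 0 < DD k l := by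
  have h1 := h.big
  have h2 := h.log_lo
  have h3 : Real.log n' ≤ Real.log n := Real.log_le_log (by have := h.big'; linarith) hle
  have h4 := log_pred n (by linarith)
  have h5 : 1 / (n - 1) ≤ 1 / 2800000000 := one_div_le_one_div_of_le (by norm_num) (by linarith)
  by_contra hcon
  push Not at hcon
  rcases Nat.lt_or_ge (k + l) 50508 with hs | hs
  · have h6 := h.cf2' hs
    rw [abs_of_nonpos hcon] at h6
    have h7 : 1 / (n - 1) ≤ 0.000000001 := h5.trans (by norm_num)
    linarith
  · have hk := k_large hs (by linarith)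
    have hkR : (31000 : ℝ) ≤ k := by exact_mod_cast hk
    have h6 := nu3_low k (k + l) h.k1
    have e : ((k + l : ℕ) : ℝ) * Real.log 2 - k * Real.log 3 = DD k l := by
      unfold DD; push_cast; ring
    rw [e, abs_of_nonpos hcon] at h6
    have h7 := nu3_exp k (by linarith)
    have h8 : Real.exp (-(0.05 * (k : ℝ) + 600)) ≤ 1 / (n - 1) := by linarith
    have h9 := h.log_ge
    rw [Real.exp_neg, ← one_div, one_div_le_one_div (Real.exp_pos _) (by linarith),
      ← Real.log_le_iff_le_exp (by linarith)] at h8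
    linarith

theorem sqrt_ge (h : Blk n n' k l) (hk : 94 ≤ k) : (10 : ℝ) ^ 13 ≤ Real.sqrt n := by
  have h1 := h.two
  have h2 : (2 : ℝ) ^ 94 ≤ 2 ^ k := pow_le_pow_right₀ (by norm_num) hk
  apply Real.le_sqrt_of_sq_le
  norm_num at h2 ⊢
  linarith

theorem D_sqrt (h : Blk n n' k l) (hle : n' ≤ n) (hk : 94 ≤ k) :
    (10 : ℝ) ^ 5 ≤ DD k l * Real.sqrt n := by
  have hpos := h.D_pos hle
  have hsq := h.sqrt_ge hk
  rcases le_or_gt 0.000018 (DD k l) with hD | hD
  · have h1 : (0.000018 : ℝ) * 10 ^ 13 ≤ DD k l * Real.sqrt n :=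
      mul_le_mul hD hsq (by positivity) hpos.le
    norm_num at h1 ⊢
    linarith
  · have hs : 50508 ≤ k + l := by
      by_contra hcon
      have := h.cf2' (by omega)
      rw [abs_of_pos hpos] at this
      linarith
    have hkl := k_large hs (by linarith)
    have hkR : (31000 : ℝ) ≤ k := by exact_mod_cast hkl
    have h6 := nu3_low k (k + l) h.k1
    have e : ((k + l : ℕ) : ℝ) * Real.log 2 - k * Real.log 3 = DD k l := by
      unfold DD; push_cast; ring
    rw [e, abs_of_pos hpos] at h6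
    have h7 := (nu3_exp k (by linarith)).trans h6
    have h9 := h.log_ge
    have hn := h.big
    have h10 : Real.exp (0.3465 * ((k : ℝ) - 1)) ≤ Real.sqrt n := by
      apply Real.le_sqrt_of_sq_le
      rw [← Real.exp_nat_mul]
      have h11 : Real.log (n - 1) ≤ Real.log n := Real.log_le_log (by linarith) (by linarith)
      have h12 : ((2 : ℕ) : ℝ) * (0.3465 * ((k : ℝ) - 1)) ≤ Real.log n := by
        push_cast; linarith
      calc Real.exp (((2 : ℕ) : ℝ) * (0.3465 * ((k : ℝ) - 1))) ≤ Real.exp (Real.log n) :=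
            Real.exp_le_exp.2 h12
        _ = n := Real.exp_log (by linarith)
    have h13 : Real.exp (-(0.05 * (k : ℝ) + 600)) * Real.exp (0.3465 * ((k : ℝ) - 1)) ≤
        DD k l * Real.sqrt n := mul_le_mul h7 h10 (Real.exp_pos _).le hpos.le
    rw [← Real.exp_add] at h13
    have h14 : (12 : ℝ) ≤ -(0.05 * (k : ℝ) + 600) + 0.3465 * ((k : ℝ) - 1) := by linarith
    have h15 := Real.exp_le_exp.2 h14
    have h16 : (10 : ℝ) ^ 5 ≤ Real.exp 12 := by
      have e1 : Real.exp 12 = Real.exp 1 ^ 12 := by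
        rw [← Real.exp_nat_mul]; norm_num
      rw [e1]
      have h17 : (2.7 : ℝ) ≤ Real.exp 1 := by have := Real.exp_one_gt_d9; linarith
      have h18 : (2.7 : ℝ) ^ 12 ≤ Real.exp 1 ^ 12 := pow_le_pow_left₀ (by norm_num) h17 12
      norm_num at h18 ⊢
      linarith
    linarith

theorem DDn (h : Blk n n' k l) (hle : n' ≤ n) : 1000 ≤ DD k l * n := by
  have hpos := h.D_pos hle
  have hn := h.big
  have e : ((k + l : ℕ) : ℝ) * Real.log 2 - k * Real.log 3 = DD k l := by
    unfold DD; push_cast; ring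
  rcases Nat.lt_or_ge k 94 with hk | hk
  · have h1 := th93 k (k + l) h.k1 (by omega) (by rw [e]; exact hpos)
    rw [e] at h1
    nlinarith
  · have h1 := h.D_sqrt hle hk
    have h2 := h.sqrt_ge hk
    have h3 : Real.sqrt n * Real.sqrt n = n := Real.mul_self_sqrt (by linarith)
    have h4 : (10 : ℝ) ^ 5 * 10 ^ 13 ≤ DD k l * Real.sqrt n * Real.sqrt n :=
      mul_le_mul h1 h2 (by positivity) (by positivity)
    rw [mul_assoc, h3] at h4
    norm_num at h4
    linarith

/-- the height goes down -/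
theorem desc (h : Blk n n' k l) (hle : n' ≤ n) :
    Real.log (n' + 1) ≤ Real.log (n + 1) - 0.99 * DD k l := by
  have hpos := h.D_pos hle
  have hn := h.big
  have hn' := h.big'
  have hDn := h.DDn hle
  have hup := h.log_up
  have h1 := log_succ n' (by linarith)
  rcases le_or_gt (DD k l) 1 with hD | hD
  · -- `1 / n' ≤ 0.01 D`
    have h2 : 1 / n' ≤ 0.01 * DD k l := by
      rw [div_le_iff₀ (by linarith)]
      -- `n' ≥ n / 4`
      have h3 : Real.log (n / 4) ≤ Real.log n' := by
        have h4 := h.log_lo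
        have h5 := log_pred n (by linarith)
        have h6 : 1 / (n - 1) ≤ 1 / 2800000000 :=
          one_div_le_one_div_of_le (by norm_num) (by linarith)
        have h7 : Real.log (n / 4) = Real.log n - 2 * Real.log 2 := by
          rw [Real.log_div (by linarith) (by norm_num), show (4 : ℝ) = 2 ^ 2 by norm_num,
            Real.log_pow]
          push_cast; ring
        obtain ⟨⟨v1, v2⟩, ⟨v3, v4⟩⟩ := vals
        have h8 : 1 / (n - 1) ≤ 0.000000001 := h6.trans (by norm_num)
        linarith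
      have h4 : n / 4 ≤ n' := (Real.log_le_log_iff (by linarith) (by linarith)).1 h3
      nlinarith
    linarith
  · have h2 : 1 / n' ≤ 1 / 2900000000 := one_div_le_one_div_of_le (by norm_num) hn'
    have h3 : 1 / n' ≤ 0.000000001 := h2.trans (by norm_num)
    linarith

/-- **the potential goes up** -/
theorem pot (h : Blk n n' k l) (hle : n' ≤ n) : 1.00001 / n ≤ G n' - G n := by
  have hpos := h.D_pos hle
  have hn := h.big
  have hn' := h.big'
  have hDn := h.DDn hle
  have hup := h.log_up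
  have e : ((k + l : ℕ) : ℝ) * Real.log 2 - k * Real.log 3 = DD k l := by
    unfold DD; push_cast; ring
  obtain ⟨δ, hδ⟩ : ∃ δ, δ = DD k l - 1 / n := ⟨_, rfl⟩
  have h1n : 1 / n ≤ DD k l / 1000 := by
    rw [div_le_div_iff₀ (by linarith) (by norm_num)]; linarith
  have h1n' : 1 / n ≤ 1 / 2900000000 := one_div_le_one_div_of_le (by norm_num) hn
  have hδ0 : 0 < δ := by rw [hδ]; linarith
  have h1 := log_succ n (by linarith)
  have h2 : Real.log n' ≤ Real.log n - δ := by rw [hδ]; linarith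
  have h3 : n' * Real.exp δ ≤ n := by
    have h4 : Real.log n' + δ ≤ Real.log n := by linarith
    have h5 := Real.exp_le_exp.2 h4
    rwa [Real.exp_add, Real.exp_log (by linarith), Real.exp_log (by linarith)] at h5
  have hE := Real.quadratic_le_exp_of_nonneg hδ0.le
  have hF : 1 + δ / 2 ≤ Real.exp (δ / 2) := by have := Real.add_one_le_exp (δ / 2); linarith
  have hsn : 0 < Real.sqrt n := Real.sqrt_pos.2 (by linarith)
  have hsn' : 0 < Real.sqrt n' := Real.sqrt_pos.2 (by linarith)
  have hss : Real.sqrt n * Real.sqrt n = n := Real.mul_self_sqrt (by linarith)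
  have h4 : Real.sqrt n' * Real.exp (δ / 2) ≤ Real.sqrt n := by
    apply Real.le_sqrt_of_sq_le
    rw [mul_pow, Real.sq_sqrt (by linarith), ← Real.exp_nat_mul]
    have e2 : ((2 : ℕ) : ℝ) * (δ / 2) = δ := by push_cast; ring
    rw [e2]; exact h3
  have h5 : (1 + δ + δ ^ 2 / 2) / n ≤ 1 / n' := by
    rw [div_le_div_iff₀ (by linarith) (by linarith)]
    nlinarith
  have h6 : (1 + δ / 2) / Real.sqrt n ≤ 1 / Real.sqrt n' := by
    rw [div_le_div_iff₀ hsn hsn']
    nlinarith
  -- combine
  have h7 : 39.6 * ((δ + δ ^ 2 / 2) / n) + 6.5 / 10 ^ 5 * (δ / 2 / Real.sqrt n) ≤ G n' - G n := by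
    unfold G
    have e3 : 39.6 / n' = 39.6 * (1 / n') := by ring
    have e4 : 6.5 / 10 ^ 5 / Real.sqrt n' = 6.5 / 10 ^ 5 * (1 / Real.sqrt n') := by ring
    have e5 : (1 + δ + δ ^ 2 / 2) / n = 1 / n + (δ + δ ^ 2 / 2) / n := by ring
    have e6 : (1 + δ / 2) / Real.sqrt n = 1 / Real.sqrt n + δ / 2 / Real.sqrt n := by ring
    have e7 : 39.6 / n = 39.6 * (1 / n) := by ring
    have e8 : 6.5 / 10 ^ 5 / Real.sqrt n = 6.5 / 10 ^ 5 * (1 / Real.sqrt n) := by ring
    rw [e3, e4, e7, e8]
    rw [e5] at h5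
    rw [e6] at h6
    linarith
  refine le_trans ?_ h7
  have e9 : δ / 2 / Real.sqrt n = (δ / 2 * Real.sqrt n) / n := by
    rw [div_eq_div_iff hsn.ne' (by linarith), mul_assoc, hss]
  rw [e9]
  have e10 : 39.6 * ((δ + δ ^ 2 / 2) / n) + 6.5 / 10 ^ 5 * ((δ / 2 * Real.sqrt n) / n) =
      (39.6 * (δ + δ ^ 2 / 2) + 6.5 / 10 ^ 5 * (δ / 2 * Real.sqrt n)) / n := by ring
  rw [e10]
  apply div_le_div_of_nonneg_right _ (by linarith)
  have h1n'' : 1 / n ≤ 0.0000000004 := h1n'.trans (by norm_num)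
  rcases Nat.lt_or_ge k 41 with hk | hk
  · have h8 := th40 k (k + l) h.k1 (by omega) (by rw [e]; exact hpos)
    rw [e] at h8
    have h9 : 0.025009 ≤ δ := by rw [hδ]; linarith
    have h10 : 0 ≤ δ / 2 * Real.sqrt n := by positivity
    have h11 : 0.025009 ^ 2 ≤ δ ^ 2 := pow_le_pow_left₀ (by norm_num) h9 2
    norm_num at h11 ⊢
    linarith
  rcases Nat.lt_or_ge k 94 with hk2 | hk2
  · have h8 := th93 k (k + l) h.k1 (by omega) (by rw [e]; exact hpos)
    rw [e] at h8
    have h9 : 0.01145 ≤ δ := by rw [hδ]; linarith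
    have h11 : 0.01145 ^ 2 ≤ δ ^ 2 := pow_le_pow_left₀ (by norm_num) h9 2
    have h12 : (1482900 : ℝ) ≤ Real.sqrt n := by
      apply Real.le_sqrt_of_sq_le
      have h13 := h.two
      have h14 : (2 : ℝ) ^ 41 ≤ 2 ^ k := pow_le_pow_right₀ (by norm_num) hk
      norm_num at h14 ⊢
      linarith
    have h13 : (0.01145 : ℝ) * 1482900 ≤ δ * Real.sqrt n := mul_le_mul h9 h12 (by norm_num) hδ0.le
    have e11 : δ / 2 * Real.sqrt n = δ * Real.sqrt n / 2 := by ring
    rw [e11]
    norm_num at h11 h13 ⊢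
    linarith
  · have h8 := h.D_sqrt hle hk2
    have h9 : DD k l / 2 ≤ δ := by rw [hδ]; linarith
    have h10 : DD k l / 2 * Real.sqrt n ≤ δ * Real.sqrt n := mul_le_mul_of_nonneg_right h9 hsn.le
    have e11 : δ / 2 * Real.sqrt n = δ * Real.sqrt n / 2 := by ring
    rw [e11]
    have h11 : 0 ≤ 39.6 * (δ + δ ^ 2 / 2) := by positivity
    norm_num at h8 ⊢
    linarith

/-- the number of odd elements -/
theorem k_le (h : Blk n n' k l) : (k : ℝ) ≤ Real.logb 2 (n + 1) := by
  have hn := h.big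
  rw [Real.le_logb_iff_rpow_le (by norm_num) (by linarith), Real.rpow_natCast]
  exact h.two

/-- the length of a circuit -/
theorem len (h : Blk n n' k l) : (k : ℝ) + l ≤ 2.585 * Real.logb 2 (n + 1) := by
  have hn := h.big
  have hn' := h.big'
  have h1 := h.k_le
  have h2 := h.log_up
  obtain ⟨⟨v1, v2⟩, ⟨v3, v4⟩⟩ := vals
  have h3 : Real.log (n + 1) = Real.logb 2 (n + 1) * Real.log 2 := by
    unfold Real.logb
    rw [div_mul_cancel₀]
    linarith
  have h4 : 0 ≤ Real.log n' := Real.log_nonneg (by linarith)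
  have h5 := log_ratio_lt
  have h6 : (0 : ℝ) ≤ k := Nat.cast_nonneg _
  unfold DD at h2
  have h7 : (k : ℝ) * Real.log 3 ≤ k * (1.585 * Real.log 2) := mul_le_mul_of_nonneg_left h5.le h6
  have h8 : ((k : ℝ) + l) * Real.log 2 ≤ (2.585 * Real.logb 2 (n + 1)) * Real.log 2 := by
    rw [h3] at h2
    nlinarith
  exact le_of_mul_le_mul_right h8 (by linarith)

/-- growth -/
theorem grow (h : Blk n n' k l) :
    Real.logb 2 (n' + 1) ≤ 1.585 * Real.logb 2 (n + 1) - 0.99 := by
  have hn := h.big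
  have hn' := h.big'
  refine growth (k := k) (by linarith) (by linarith) h.two ?_
  have h1 := h.up
  rw [pow_add] at h1
  have h2 : (2 : ℝ) ^ 1 ≤ 2 ^ l := pow_le_pow_right₀ (by norm_num) h.l1
  have h3 : (3 / 2 : ℝ) ^ k * (n + 1) = 3 ^ k * (n + 1) / 2 ^ k := by
    rw [div_pow]; ring
  rw [h3]
  have h4 : 2 * n' ≤ 3 ^ k * (n + 1) / 2 ^ k := by
    rw [le_div_iff₀ (by positivity)]
    have h5 : (2 : ℝ) ^ k * (2 * n') ≤ 2 ^ k * (2 ^ l * n') :=
      mul_le_mul_of_nonneg_left (mul_le_mul_of_nonneg_right (by linarith) (by linarith))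
        (by positivity)
    linarith
  linarith

end Blk

end Pool.Agent.H15.Asc4
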