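import Mathlib
import Pool.Agent.H15.Asc4.Block
import Pool.Agent.H15.Asc.Core

set_option autoImplicit false

/-!
Cyclic sequences of local minima with few ascents.
-/

namespace Pool.Agent.H15.Asc4

open Finset
open Pool.Agent.H15.Cyc (vals phi phi_succ phi_zero phi_ge)
open Pool.Agent.H15.Asc (up)
open Pool.Agent.H15.Asc.Dat (up_succ up_mono)

/-- the cyclic sequence of local minima -/
structure Dt (m : ℕ) (n : ℕ → ℝ) (k l : ℕ → ℕ) : Prop where
  m1 : 1 ≤ m
  cyc : n m = n 0
  min : ∀ j, n 0 ≤ n j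
  blk : ∀ j, Blk (n j) (n (j + 1)) (k j) (l j)

/-- the cost of an ascent -/
noncomputable def E (x : ℝ) : ℝ := 1.00001 / x + G x

theorem G_nonneg {x : ℝ} (hx : 0 < x) : 0 ≤ G x := by unfold G; positivity

theorem G_anti {x y : ℝ} (hx : 0 < x) (hxy : x ≤ y) : G y ≤ G x := by
  unfold G
  have h1 : 39.6 / y ≤ 39.6 / x := div_le_div_of_nonneg_left (by norm_num) hx hxy
  have h2 : 6.5 / 10 ^ 5 / Real.sqrt y ≤ 6.5 / 10 ^ 5 / Real.sqrt x :=
    div_le_div_of_nonneg_left (by norm_num) (Real.sqrt_pos.2 hx) (Real.sqrt_le_sqrt hxy)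
  linarith

theorem E_anti {x y : ℝ} (hx : 0 < x) (hxy : x ≤ y) : E y ≤ E x := by
  unfold E
  have h1 : 1.00001 / y ≤ 1.00001 / x := div_le_div_of_nonneg_left (by norm_num) hx hxy
  have h2 := G_anti hx hxy
  linarith

theorem phi_mono {t : ℝ} (ht : 2 ≤ t) {b b' : ℕ} (h : b ≤ b') : phi t b ≤ phi t b' := by
  induction b', h using Nat.le_induction with
  | base => exact le_rfl
  | succ c hc ih =>
    rw [phi_succ]
    have := phi_ge ht c
    linarith

variable {m : ℕ} {n : ℕ → ℝ} {k l : ℕ → ℕ}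

namespace Dt

theorem big (h : Dt m n k l) (j : ℕ) : 2900000000 ≤ n j := (h.blk j).big

/-- **the linear form** -/
theorem form (h : Dt m n k l) :
    |(∑ j ∈ range m, ((k j : ℝ) + l j)) * Real.log 2 - (∑ j ∈ range m, (k j : ℝ)) * Real.log 3| ≤
      up n m * E (n 0) := by
  have hn0 := h.big 0
  have key : ∀ j, |Real.log (n j) - Real.log (n 0) +
      ((∑ i ∈ range j, ((k i : ℝ) + l i)) * Real.log 2 - (∑ i ∈ range j, (k i : ℝ)) * Real.log 3)| ≤
      G (n j) - G (n 0) + up n j * E (n 0) := by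
    intro j
    induction j with
    | zero => simp [up]
    | succ j ih =>
      have hb := h.blk j
      have h1 := hb.form
      rw [Finset.sum_range_succ, Finset.sum_range_succ, up_succ]
      have e : Real.log (n (j + 1)) - Real.log (n 0) +
          ((∑ i ∈ range j, ((k i : ℝ) + l i) + (k j + l j)) * Real.log 2 -
          (∑ i ∈ range j, (k i : ℝ) + k j) * Real.log 3) =
          (Real.log (n j) - Real.log (n 0) + ((∑ i ∈ range j, ((k i : ℝ) + l i)) * Real.log 2 -
            (∑ i ∈ range j, (k i : ℝ)) * Real.log 3)) +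
          (Real.log (n (j + 1)) - Real.log (n j) + DD (k j) (l j)) := by
        unfold DD; ring
      rw [e]
      refine (abs_add_le _ _).trans ?_
      by_cases hc : n j < n (j + 1)
      · rw [if_pos hc]
        push_cast
        have h2 : 1.00001 / n j + G (n j) ≤ E (n 0) := E_anti (by linarith) (h.min j)
        have h3 : 0 ≤ G (n (j + 1)) := G_nonneg (by have := h.big (j + 1); linarith)
        linarith
      · rw [if_neg hc, add_zero]
        have h2 := hb.pot (not_lt.1 hc)
        linarith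
  have h1 := key m
  rw [h.cyc] at h1
  simpa using h1

/-- the heights -/
theorem height (h : Dt m n k l) {t : ℝ} (ht : 2 ≤ t) (h0 : Real.logb 2 (n 0 + 1) ≤ t) (j : ℕ) :
    Real.logb 2 (n j + 1) ≤ phi t (up n j) := by
  induction j with
  | zero => simpa [up, phi_zero] using h0
  | succ j ih =>
    have hb := h.blk j
    rw [up_succ]
    by_cases hc : n j < n (j + 1)
    · rw [if_pos hc, phi_succ]
      have := hb.grow
      linarith
    · rw [if_neg hc, add_zero]
      refine le_trans ?_ ih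
      have h1 := h.big j
      have h2 := h.big (j + 1)
      exact Real.logb_le_logb_of_le (by norm_num) (by linarith) (by linarith)

theorem logb_mul (x : ℝ) : Real.logb 2 x * Real.log 2 = Real.log x := by
  unfold Real.logb
  rw [div_mul_cancel₀]
  have := Real.log_two_gt_d9
  linarith

/-- **the length** -/
theorem level (h : Dt m n k l) {M : ℕ} (hM : up n m ≤ M) {t : ℝ} (ht : 2 ≤ t)
    (h0 : Real.logb 2 (n 0 + 1) ≤ t) {K : ℕ} (hK : phi t M < K + 1) {θ : ℝ} (hθ : 0 < θ)
    (hTh : Th K θ) :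
    ∑ j ∈ range m, ((k j : ℝ) + l j) ≤ 2.585 * phi t M * (M + (phi t M - t) / (1.428 * θ)) := by
  obtain ⟨⟨v1, v2⟩, ⟨v3, v4⟩⟩ := vals
  have hV : ∀ j, j ≤ m → Real.logb 2 (n j + 1) ≤ phi t M := fun j hj =>
    (h.height ht h0 j).trans (phi_mono ht ((up_mono n hj).trans hM))
  -- descents
  have hdesc : ∀ j, j < m → ¬ n j < n (j + 1) →
      Real.logb 2 (n (j + 1) + 1) ≤ Real.logb 2 (n j + 1) - 1.428 * θ := by
    intro j hj hc
    have hb := h.blk j
    have h1 := hb.desc (not_lt.1 hc)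
    have h2 := hb.k_le.trans (hV j hj.le)
    have h3 : k j ≤ K := by
      have h4 : (k j : ℝ) < K + 1 := by linarith
      have h5 : k j < K + 1 := by exact_mod_cast h4
      omega
    have e : ((k j + l j : ℕ) : ℝ) * Real.log 2 - k j * Real.log 3 = DD (k j) (l j) := by
      unfold DD; push_cast; ring
    have h4 := hTh (k j) (k j + l j) hb.k1 h3 (by rw [e]; exact hb.D_pos (not_lt.1 hc))
    rw [e] at h4
    have h5 := logb_mul (n (j + 1) + 1)
    have h6 := logb_mul (n j + 1)
    rw [← h5, ← h6] at h1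
    have h7 : 1.428 * θ * Real.log 2 ≤ 0.99 * θ := by nlinarith
    have h8 : Real.logb 2 (n (j + 1) + 1) * Real.log 2 ≤
        (Real.logb 2 (n j + 1) - 1.428 * θ) * Real.log 2 := by linarith
    exact le_of_mul_le_mul_right h8 (by linarith)
  have key : ∀ j, j ≤ m → Real.logb 2 (n j + 1) + ((j : ℝ) - up n j) * (1.428 * θ) ≤
      Real.logb 2 (n 0 + 1) + (phi t (up n j) - t) := by
    intro j
    induction j with
    | zero => intro _; simp [up, phi_zero]
    | succ j ih =>
      intro hj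
      have h1 := ih (by omega)
      have hb := h.blk j
      rw [up_succ]
      by_cases hc : n j < n (j + 1)
      · rw [if_pos hc, phi_succ]
        push_cast
        have h2 := hb.grow
        have h3 := h.height ht h0 j
        linarith
      · rw [if_neg hc, add_zero]
        push_cast
        have h2 := hdesc j (by omega) hc
        linarith
  have h1 := key m le_rfl
  rw [h.cyc] at h1
  have hup : (up n m : ℝ) ≤ M := by exact_mod_cast hM
  have h2 : phi t (up n m) ≤ phi t M := phi_mono ht hM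
  have hθ' : 0 < 1.428 * θ := by positivity
  have h3 : (m : ℝ) ≤ M + (phi t M - t) / (1.428 * θ) := by
    have h4 : ((m : ℝ) - M) * (1.428 * θ) ≤ phi t M - t := by nlinarith
    rw [← le_div_iff₀ hθ'] at h4
    linarith
  have h4 : ∀ j ∈ range m, ((k j : ℝ) + l j) ≤ 2.585 * phi t M := by
    intro j hj
    have h5 := (h.blk j).len
    have h6 := hV j (mem_range.1 hj).le
    linarith
  have h5 := Finset.sum_le_sum h4
  simp only [Finset.sum_const, Finset.card_range, nsmul_eq_mul] at h5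
  have h6 := phi_ge ht M
  calc ∑ j ∈ range m, ((k j : ℝ) + l j) ≤ m * (2.585 * phi t M) := h5
    _ ≤ (M + (phi t M - t) / (1.428 * θ)) * (2.585 * phi t M) :=
        mul_le_mul_of_nonneg_right h3 (by linarith)
    _ = _ := by ring

/-- the least element is low -/
theorem low (h : Dt m n k l) (hM : up n m ≤ 4) {lam : ℝ} (hlam : lam ≤
    |(∑ j ∈ range m, ((k j : ℝ) + l j)) * Real.log 2 - (∑ j ∈ range m, (k j : ℝ)) * Real.log 3|)
    (u : ℕ) (hu : 5 ≤ u) (hlu : 4 * (40.7 / (2 ^ u) ^ 2 + 6.51 / 10 ^ 5 / 2 ^ u) < lam) :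
    Real.logb 2 (n 0 + 1) ≤ ((2 * u : ℕ) : ℝ) := by
  have hn0 := h.big 0
  by_contra hcon
  push Not at hcon
  rw [Real.lt_logb_iff_rpow_lt (by norm_num) (by linarith), Real.rpow_natCast, pow_mul'] at hcon
  have hform := hlam.trans h.form
  have hup : (up n m : ℝ) ≤ 4 := by exact_mod_cast hM
  have h2u : (32 : ℝ) ≤ 2 ^ u := by
    have : (2 : ℝ) ^ 5 ≤ 2 ^ u := pow_le_pow_right₀ (by norm_num) hu
    norm_num at this ⊢
    linarith
  set y : ℝ := 2 ^ u with hy
  have hyy : 1024 ≤ y ^ 2 := by nlinarith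
  have h1 : 0.999 ^ 2 * y ^ 2 ≤ n 0 := by
    have : (0.999 : ℝ) ^ 2 = 0.998001 := by norm_num
    rw [this]; linarith
  have hE : E (n 0) ≤ 40.7 / y ^ 2 + 6.51 / 10 ^ 5 / y := by
    refine (E_anti (by positivity) h1).trans ?_
    unfold E G
    have h2 : Real.sqrt (0.999 ^ 2 * y ^ 2) = 0.999 * y := by
      rw [← mul_pow, Real.sqrt_sq (by positivity)]
    rw [h2]
    have e1 : 1.00001 / (0.999 ^ 2 * y ^ 2) + (39.6 / (0.999 ^ 2 * y ^ 2) +
        6.5 / 10 ^ 5 / (0.999 * y)) = (1.00001 + 39.6) / 0.999 ^ 2 * (1 / y ^ 2) +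
        6.5 / 10 ^ 5 / 0.999 * (1 / y) := by
      field_simp
      ring
    have e2 : 40.7 / y ^ 2 + 6.51 / 10 ^ 5 / y = 40.7 * (1 / y ^ 2) + 6.51 / 10 ^ 5 * (1 / y) := by
      ring
    rw [e1, e2]
    have h3 : (0 : ℝ) ≤ 1 / y ^ 2 := by positivity
    have h4 : (0 : ℝ) ≤ 1 / y := by positivity
    apply add_le_add
    · exact mul_le_mul_of_nonneg_right (by norm_num) h3
    · exact mul_le_mul_of_nonneg_right (by norm_num) h4
  have hE0 : 0 ≤ E (n 0) := by
    unfold E
    have := G_nonneg (show 0 < n 0 by linarith)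
    positivity
  nlinarith

end Dt

end Pool.Agent.H15.Asc4
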