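import Mathlib
import Pool.Agent.H15.Asc4.Chain

set_option autoImplicit false

/-!
No cyclic sequence of large local minima has at most four ascents.
-/

namespace Pool.Agent.H15.Asc4

open Finset
open Pool.Agent.H15.Cyc (vals phi phi_succ phi_zero phi_ge lev_a lev_b lev_e)
open Pool.Agent.H15.Asc (up nu3)

variable {m : ℕ} {n : ℕ → ℝ} {k l : ℕ → ℕ}

namespace Dt

/-- the number of elements -/
def P (m : ℕ) (k l : ℕ → ℕ) : ℕ := ∑ j ∈ range m, (k j + l j)

/-- the number of odd elements -/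
def Q (m : ℕ) (k : ℕ → ℕ) : ℕ := ∑ j ∈ range m, k j

theorem P_cast (m : ℕ) (k l : ℕ → ℕ) : (P m k l : ℝ) = ∑ j ∈ range m, ((k j : ℝ) + l j) := by
  unfold P; push_cast; rfl

theorem Q_cast (m : ℕ) (k : ℕ → ℕ) : (Q m k : ℝ) = ∑ j ∈ range m, (k j : ℝ) := by
  unfold Q; push_cast; rfl

theorem P_pos (h : Dt m n k l) : 0 < P m k l := by
  unfold P
  apply Finset.sum_pos
  · intro i _
    have := (h.blk i).k1
    omega
  · exact ⟨0, mem_range.2 h.m1⟩

theorem form_small (h : Dt m n k l) (hM : up n m ≤ 4) :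
    |(P m k l : ℝ) * Real.log 2 - Q m k * Real.log 3| ≤ 6.0829 / 10 ^ 8 := by
  rw [P_cast, Q_cast]
  refine h.form.trans ?_
  have hn0 := h.big 0
  have hup : (up n m : ℝ) ≤ 4 := by exact_mod_cast hM
  have hE0 : 0 ≤ E (n 0) := by
    unfold E
    have := G_nonneg (show 0 < n 0 by linarith)
    positivity
  have hE : E (n 0) ≤ 1.52071 / 10 ^ 8 := by
    refine (E_anti (by norm_num) hn0).trans ?_
    unfold E G
    have h1 : (53851 : ℝ) ≤ Real.sqrt 2900000000 := by
      apply Real.le_sqrt_of_sq_le; norm_num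
    have h2 : 6.5 / 10 ^ 5 / Real.sqrt 2900000000 ≤ 6.5 / 10 ^ 5 / 53851 :=
      div_le_div_of_nonneg_left (by norm_num) (by norm_num) h1
    have h3 : (1.00001 : ℝ) / 2900000000 + (39.6 / 2900000000 + 6.5 / 10 ^ 5 / 53851) ≤
        1.52071 / 10 ^ 8 := by norm_num
    linarith
  nlinarith

theorem low' (h : Dt m n k l) (hM : up n m ≤ 4) {lam : ℝ} (hlam : lam ≤
    |(P m k l : ℝ) * Real.log 2 - Q m k * Real.log 3|)
    (u : ℕ) (hu : 5 ≤ u) (hlu : 4 * (40.7 / (2 ^ u) ^ 2 + 6.51 / 10 ^ 5 / 2 ^ u) < lam) :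
    Real.logb 2 (n 0 + 1) ≤ ((2 * u : ℕ) : ℝ) := by
  rw [P_cast, Q_cast] at hlam
  exact h.low hM hlam u hu hlu

theorem level' (h : Dt m n k l) (hM : up n m ≤ 4) {t : ℝ} (ht : 2 ≤ t)
    (h0 : Real.logb 2 (n 0 + 1) ≤ t) {K : ℕ} (hK : phi t 4 < K + 1) {θ : ℝ} (hθ : 0 < θ)
    (hTh : Th K θ) :
    (P m k l : ℝ) ≤ 2.585 * phi t 4 * (4 + (phi t 4 - t) / (1.428 * θ)) := by
  rw [P_cast]
  exact h.level hM ht h0 hK hθ hTh

theorem phi4 (t : ℝ) : phi t 4 = (t - 22 / 13) * 1.585 ^ 4 + 22 / 13 := rfl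

/-- the length is huge -/
theorem long (h : Dt m n k l) (hM : up n m ≤ 4) : 766512153894657 ≤ P m k l := by
  have hp := h.P_pos
  have hsm := h.form_small hM
  by_contra hcon
  push Not at hcon
  rcases Nat.lt_or_ge (P m k l) 16785921 with h1 | h1
  · have h2 := lev_0 (P m k l : ℤ) (Q m k : ℤ) (by omega) (by omega)
    push_cast at h2
    have := h2.trans hsm
    norm_num at this
  rcases Nat.lt_or_ge (P m k l) 17087915 with h2 | h2
  · have h3 := lev_a (P m k l : ℤ) (Q m k : ℤ) (by omega) (by omega)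
    push_cast at h3
    have h4 := h.low' hM h3 16 (by norm_num) (by norm_num)
    have h5 := h.level' hM (t := 32) (by norm_num) (by norm_num at h4 ⊢; exact h4) (K := 199)
      (by rw [phi4]; norm_num) (by norm_num) th199
    rw [phi4] at h5
    have h6 : (16785921 : ℝ) ≤ P m k l := by exact_mod_cast h1
    norm_num at h5
    linarith
  rcases Nat.lt_or_ge (P m k l) 85137581 with h3 | h3
  · have h4 := lev_b (P m k l : ℤ) (Q m k : ℤ) (by omega) (by omega)
    push_cast at h4
    have h5 := h.low' hM h4 17 (by norm_num) (by norm_num)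
    have h6 := h.level' hM (t := 34) (by norm_num) (by norm_num at h5 ⊢; exact h5) (K := 252)
      (by rw [phi4]; norm_num) (by norm_num) th252
    rw [phi4] at h6
    have h7 : (17087915 : ℝ) ≤ P m k l := by exact_mod_cast h2
    norm_num at h6
    linarith
  rcases Nat.lt_or_ge (P m k l) 630138897 with h4 | h4
  · have h5 := lev_e (P m k l : ℤ) (Q m k : ℤ) (by omega) (by omega)
    push_cast at h5
    have h6 := h.low' hM h5 19 (by norm_num) (by norm_num)
    have h7 := h.level' hM (t := 38) (by norm_num) (by norm_num at h6 ⊢; exact h6) (K := 252)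
      (by rw [phi4]; norm_num) (by norm_num) th252
    rw [phi4] at h7
    have h8 : (85137581 : ℝ) ≤ P m k l := by exact_mod_cast h3
    norm_num at h7
    linarith
  · have h5 := lev_h (P m k l : ℤ) (Q m k : ℤ) (by omega) (by omega)
    push_cast at h5
    have h6 := h.low' hM h5 38 (by norm_num) (by norm_num)
    have h7 := h.level' hM (t := 76) (by norm_num) (by norm_num at h6 ⊢; exact h6) (K := 970)
      (by rw [phi4]; norm_num) (by norm_num) th970
    rw [phi4] at h7
    have h8 : (630138897 : ℝ) ≤ P m k l := by exact_mod_cast h4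
    norm_num at h7
    linarith

end Dt

end Pool.Agent.H15.Asc4
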