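import Mathlib
import Pool.Agent.H15.Asc4.None

set_option autoImplicit false

/-!
No cyclic sequence of large local minima has at most four ascents: the general range.
-/

namespace Pool.Agent.H15.Asc4

open Finset
open Pool.Agent.H15.Cyc (vals phi phi_succ phi_zero phi_ge)
open Pool.Agent.H15.Asc (up nu3 nu3_anti nu3_pos nu3_small)

variable {m : ℕ} {n : ℕ → ℝ} {k l : ℕ → ℕ}

namespace Dt

theorem quad97 (r : ℕ) (hr : 97 ≤ r) :
    18.2 * (6.83 * 10 ^ 12 * (r : ℝ) ^ 2) ≤ ((204800 : ℝ) / 117649) ^ (r - 1) := by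
  induction r, hr using Nat.le_induction with
  | base => norm_num
  | succ r hr ih =>
    obtain ⟨s, rfl⟩ : ∃ s, r = s + 1 := ⟨r - 1, by omega⟩
    rw [Nat.add_sub_cancel] at ih ⊢
    rw [pow_succ ((204800 : ℝ) / 117649) s]
    have hs : (96 : ℝ) ≤ s := by
      have : 96 ≤ s := by omega
      exact_mod_cast this
    push_cast at ih ⊢
    have h1 : ((s : ℝ) + 1 + 1) ^ 2 ≤ 1.7 * ((s : ℝ) + 1) ^ 2 := by nlinarith
    have h2 : (0 : ℝ) ≤ (204800 / 117649) ^ s := by positivity
    have h3 : (204800 / 117649 : ℝ) ^ s * 1.7 ≤ (204800 / 117649) ^ s * (204800 / 117649) :=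
      mul_le_mul_of_nonneg_left (by norm_num) h2
    linarith

theorem log_nat_le (a b : ℕ) (h : (a : ℝ) ≤ 2 ^ b) (ha : (0 : ℝ) < a) :
    Real.log a ≤ b * Real.log 2 := by
  have h1 := Real.log_le_log ha h
  rwa [Real.log_pow] at h1

/-- **No cyclic sequence of large local minima has at most four ascents.** -/
theorem none (h : Dt m n k l) (hM : up n m ≤ 4) : False := by
  have hlong := h.long hM
  have hsm := h.form_small hM
  set p := P m k l with hp
  set o := Q m k with ho
  have hpR : (766512153894657 : ℝ) ≤ p := by exact_mod_cast hlong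
  obtain ⟨⟨v1, v2⟩, ⟨v3, v4⟩⟩ := vals
  obtain ⟨hs1, hs2⟩ := abs_le.1 hsm
  norm_num at hs1 hs2
  have ho0 : (0 : ℝ) ≤ o := Nat.cast_nonneg _
  have w1 : (p : ℝ) * Real.log 2 ≤ p * 0.6931472 := mul_le_mul_of_nonneg_left (by linarith) (by linarith)
  have w2 : (p : ℝ) * 0.6931471 ≤ p * Real.log 2 := mul_le_mul_of_nonneg_left (by linarith) (by linarith)
  have w3 : (o : ℝ) * Real.log 3 ≤ o * 1.0986123 := mul_le_mul_of_nonneg_left (by linarith) ho0
  have w4 : (o : ℝ) * 1.0986122 ≤ o * Real.log 3 := mul_le_mul_of_nonneg_left (by linarith) ho0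
  have ho1 : (p : ℝ) < 2 * o := by linarith
  have ho2 : 3 * (o : ℝ) < 2 * p := by linarith
  have ho1' : (p : ℤ) < 2 * (o : ℤ) := by exact_mod_cast ho1
  have ho2' : 3 * (o : ℤ) < 2 * (p : ℤ) := by exact_mod_cast ho2
  have hpk1 : 49 * ((p : ℝ) - o) ≤ 18.2 * p := by linarith
  have hpk2 : 18 * (p : ℝ) ≤ 49 * ((p : ℝ) - o) := by linarith
  have hc1 : (1 : ℝ) < 204800 / 117649 := by norm_num
  have hex : ∃ r : ℕ, 49 * ((p : ℝ) - o) ≤ (204800 / 117649) ^ r := by
    obtain ⟨r, hr⟩ := pow_unbounded_of_one_lt (49 * ((p : ℝ) - o)) hc1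
    exact ⟨r, hr.le⟩
  classical
  obtain ⟨r, hr1, hr2⟩ : ∃ r : ℕ, 49 * ((p : ℝ) - o) ≤ (204800 / 117649) ^ r ∧
      ∀ s < r, ¬ 49 * ((p : ℝ) - o) ≤ (204800 / 117649) ^ s :=
    ⟨Nat.find hex, Nat.find_spec hex, fun s hs => Nat.find_min hex hs⟩
  have hr68 : 68 ≤ r := by
    by_contra hcon
    have h5 : ((204800 : ℝ) / 117649) ^ r ≤ (204800 / 117649) ^ 67 :=
      pow_le_pow_right₀ hc1.le (by omega)
    have h6 : ((204800 : ℝ) / 117649) ^ 67 ≤ 13700000000000000 := by norm_num
    linarith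
  have hrR : (68 : ℝ) ≤ r := by exact_mod_cast hr68
  have hr3 : ((204800 : ℝ) / 117649) ^ (r - 1) < 18.2 * p :=
    (not_le.1 (hr2 (r - 1) (by omega))).trans_le hpk1
  have hlow := Pool.Agent.H15.Lin.Form.lower r (p : ℤ) (o : ℤ) ho1' ho2' (by
    push_cast; exact hr1)
  push_cast at hlow
  -- lower bound for the form
  have hlam : (1 : ℝ) / 2 ^ (13 + 39 * r) ≤ |(p : ℝ) * Real.log 2 - o * Real.log 3| := by
    rw [div_le_iff₀ (by positivity), pow_add]
    linarith
  have hv0 := h.low' hM hlam (39 * r + 2) (by omega) (by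
    have hy : (2 : ℝ) ^ 100 ≤ 2 ^ (39 * r + 2) := pow_le_pow_right₀ (by norm_num) (by omega)
    have e : (1 : ℝ) / 2 ^ (13 + 39 * r) = 1 / 2 ^ 11 / 2 ^ (39 * r + 2) := by
      rw [div_div, ← pow_add]; congr 2; ring
    rw [e]
    set y : ℝ := 2 ^ (39 * r + 2) with hyd
    have hy0 : 0 < y := by positivity
    have e2 : 4 * (40.7 / y ^ 2 + 6.51 / 10 ^ 5 / y) = 4 * (40.7 / y + 6.51 / 10 ^ 5) / y := by
      field_simp
    rw [e2]
    apply div_lt_div_of_pos_right _ hy0
    have h3 : 40.7 / y ≤ 40.7 / 2 ^ 100 := div_le_div_of_nonneg_left (by norm_num) (by norm_num) hy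
    have h4 : 4 * ((40.7 : ℝ) / 2 ^ 100 + 6.51 / 10 ^ 5) < 1 / 2 ^ 11 := by norm_num
    linarith)
  set t : ℝ := ((2 * (39 * r + 2) : ℕ) : ℝ) with ht
  have htv : t = 78 * r + 4 := by rw [ht]; push_cast; ring
  have ht2 : 2 ≤ t := by rw [htv]; linarith
  have hV : phi t 4 ≤ 493 * r := by
    rw [phi4, htv]
    norm_num
    linarith
  have hVt : phi t 4 - t ≤ 493 * r := by linarith
  have hVpos : t ≤ phi t 4 := phi_ge ht2 4
  -- three ranges
  rcases Nat.lt_or_ge r 97 with hr | hr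
  · have hrR' : (r : ℝ) ≤ 96 := by
      have : r ≤ 96 := by omega
      exact_mod_cast this
    have h1 := h.level' hM ht2 hv0 (K := 47467) (by
      have : ((47467 : ℕ) : ℝ) = 47467 := by norm_num
      rw [this]; linarith) (by norm_num) th47467
    have h2 : 4 + (phi t 4 - t) / (1.428 * 0.00001819) ≤ 4 + 493 * 96 / (1.428 * 0.00001819) := by
      have : (phi t 4 - t) / (1.428 * 0.00001819) ≤ 493 * 96 / (1.428 * 0.00001819) :=
        div_le_div_of_nonneg_right (by linarith) (by norm_num)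
      linarith
    have h3 : 2.585 * phi t 4 * (4 + (phi t 4 - t) / (1.428 * 0.00001819)) ≤
        2.585 * (493 * 96) * (4 + 493 * 96 / (1.428 * 0.00001819)) := by
      apply mul_le_mul (by linarith) h2 _ (by norm_num)
      have : 0 ≤ (phi t 4 - t) / (1.428 * 0.00001819) := div_nonneg (by linarith) (by norm_num)
      linarith
    have h4 : (2.585 : ℝ) * (493 * 96) * (4 + 493 * 96 / (1.428 * 0.00001819)) <
        766512153894657 := by norm_num
    linarith
  rcases Nat.lt_or_ge r 2000 with hr' | hr'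
  · have hrR' : (r : ℝ) ≤ 2000 := by exact_mod_cast hr'.le
    have hrR97 : (97 : ℝ) ≤ r := by exact_mod_cast hr
    have h1 := h.level' hM ht2 hv0 (K := 10781273) (by
      have : ((10781273 : ℕ) : ℝ) = 10781273 := by norm_num
      rw [this]; linarith) (by norm_num) th10M
    have h2 : 4 + (phi t 4 - t) / (1.428 * (645 / 10 ^ 10)) ≤ 5353000000 * r := by
      have : (phi t 4 - t) / (1.428 * (645 / 10 ^ 10)) ≤ 493 * r / (1.428 * (645 / 10 ^ 10)) :=
        div_le_div_of_nonneg_right (by linarith) (by norm_num)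
      have e : 493 * (r : ℝ) / (1.428 * (645 / 10 ^ 10)) = 493 / (1.428 * (645 / 10 ^ 10)) * r := by
        ring
      have h3 : (493 : ℝ) / (1.428 * (645 / 10 ^ 10)) ≤ 5352600000 := by norm_num
      rw [e] at this
      have h4 : 493 / (1.428 * (645 / 10 ^ 10)) * (r : ℝ) ≤ 5352600000 * r :=
        mul_le_mul_of_nonneg_right h3 (by linarith)
      linarith
    have h3 : 2.585 * phi t 4 * (4 + (phi t 4 - t) / (1.428 * (645 / 10 ^ 10))) ≤
        2.585 * (493 * r) * (5353000000 * r) := by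
      apply mul_le_mul (by linarith) h2 _ (by positivity)
      have : 0 ≤ (phi t 4 - t) / (1.428 * (645 / 10 ^ 10)) := div_nonneg (by linarith) (by norm_num)
      linarith
    have h4 := quad97 r hr
    have h5 : 2.585 * (493 * (r : ℝ)) * (5353000000 * r) ≤ 6.83 * 10 ^ 12 * (r : ℝ) ^ 2 := by
      have : (0 : ℝ) ≤ (r : ℝ) ^ 2 := by positivity
      nlinarith
    linarith
  · have hrR' : (2000 : ℝ) ≤ r := by exact_mod_cast hr'
    have hKf : phi t 4 < ((⌊phi t 4⌋₊ : ℕ) : ℝ) + 1 := Nat.lt_floor_add_one _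
    have hKle : ((⌊phi t 4⌋₊ : ℕ) : ℝ) ≤ 493 * r :=
      (Nat.floor_le (by linarith)).trans hV
    have hK1 : (1 : ℝ) ≤ ((⌊phi t 4⌋₊ : ℕ) : ℝ) := by
      have h1 : (1 : ℝ) ≤ phi t 4 := by linarith
      have h2 : 1 ≤ ⌊phi t 4⌋₊ := Nat.one_le_floor_iff _ |>.2 h1
      exact_mod_cast h2
    have hν1 : nu3 (493 * r) ≤ nu3 ((⌊phi t 4⌋₊ : ℕ) : ℝ) := nu3_anti hK1 hKle
    have hν0 : 0 < nu3 (493 * (r : ℝ)) := nu3_pos (by linarith)
    have hνs : nu3 (493 * (r : ℝ)) ≤ 1 / 100 := nu3_small (by linarith)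
    have h1 := h.level' hM ht2 hv0 (K := ⌊phi t 4⌋₊) hKf (hν0.trans_le hν1) (thGen _)
    obtain ⟨ν, hνd⟩ : ∃ ν, ν = nu3 (493 * (r : ℝ)) := ⟨_, rfl⟩
    obtain ⟨ν', hνd'⟩ : ∃ ν', ν' = nu3 ((⌊phi t 4⌋₊ : ℕ) : ℝ) := ⟨_, rfl⟩
    rw [← hνd, ← hνd'] at hν1
    rw [← hνd] at hν0 hνs
    rw [← hνd'] at h1
    have hν0' : 0 < ν' := hν0.trans_le hν1
    have h2 : (phi t 4 - t) / (1.428 * ν') ≤ 493 * r / (1.428 * ν) := by
      apply div_le_div₀ (by positivity) hVt (by positivity)
      linarith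
    have h3 : 4 + 493 * (r : ℝ) / (1.428 * ν) ≤ 500 * r / ν := by
      have e : 493 * (r : ℝ) / (1.428 * ν) = 493 / 1.428 * (r / ν) := by
        field_simp
      have e2 : 500 * (r : ℝ) / ν = 500 * (r / ν) := by ring
      rw [e, e2]
      have h4 : (1 : ℝ) ≤ r / ν := by
        rw [le_div_iff₀ hν0]; linarith
      have h5 : (493 : ℝ) / 1.428 ≤ 400 := by norm_num
      nlinarith
    have h4 : (p : ℝ) ≤ 640000 * (r : ℝ) ^ 2 / ν := by
      refine h1.trans ?_
      have h5 : 2.585 * phi t 4 * (4 + (phi t 4 - t) / (1.428 * ν')) ≤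
          2.585 * (493 * r) * (500 * r / ν) := by
        apply mul_le_mul (by linarith) (by linarith) _ (by positivity)
        have : 0 ≤ (phi t 4 - t) / (1.428 * ν') := by
          apply div_nonneg (by linarith)
          positivity
        linarith
      refine h5.trans ?_
      have e : 2.585 * (493 * (r : ℝ)) * (500 * r / ν) = 2.585 * 493 * 500 * ((r : ℝ) ^ 2 / ν) := by
        ring
      have e2 : 640000 * (r : ℝ) ^ 2 / ν = 640000 * ((r : ℝ) ^ 2 / ν) := by ring
      rw [e, e2]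
      apply mul_le_mul_of_nonneg_right (by norm_num) (by positivity)
    -- logarithms
    have hνlog : Real.log ν = -(13 * Real.log 2 + 49 * (Real.log 86 + (Real.log 493 + Real.log r))) := by
      rw [hνd]
      unfold nu3
      rw [Real.log_div (by norm_num) (by positivity), Real.log_one, Real.log_mul (by positivity)
        (by positivity), Real.log_pow, Real.log_pow, Real.log_mul (by norm_num) (by positivity),
        Real.log_mul (by norm_num) (by positivity)]
      push_cast; ring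
    have h5 := Real.log_le_log (by linarith) h4
    rw [Real.log_div (by positivity) hν0.ne', Real.log_mul (by norm_num) (by positivity),
      Real.log_pow, hνlog] at h5
    have l1 := log_nat_le 640000 20 (by norm_num) (by norm_num)
    have l2 := log_nat_le 86 7 (by norm_num) (by norm_num)
    have l3 := log_nat_le 493 9 (by norm_num) (by norm_num)
    have l4 := log_nat_le 1000 10 (by norm_num) (by norm_num)
    have l5 := log_le_lin (r : ℝ) 1000 6.94 (by linarith) (by norm_num) (by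
      push_cast at l4; linarith)
    have l6 := log_nat_le 32 5 (by norm_num) (by norm_num)
    have h6 := Real.log_lt_log (by positivity) hr3
    rw [Real.log_mul (by norm_num) (by positivity), Real.log_pow] at h6
    have h7 : Real.log 18.2 ≤ Real.log 32 := Real.log_le_log (by norm_num) (by norm_num)
    have h8 : 0.5198 ≤ Real.log (204800 / 117649) := by
      have h9 := Real.log_le_log (show (0 : ℝ) < 2 ^ 3 by norm_num)
        (show (2 : ℝ) ^ 3 ≤ (204800 / 117649) ^ 4 by norm_num)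
      rw [Real.log_pow, Real.log_pow] at h9
      push_cast at h9
      linarith
    have h10 : ((r - 1 : ℕ) : ℝ) = (r : ℝ) - 1 := by
      rw [Nat.cast_sub (by omega)]; simp
    rw [h10] at h6
    have h11 : ((r : ℝ) - 1) * 0.5198 ≤ ((r : ℝ) - 1) * Real.log (204800 / 117649) :=
      mul_le_mul_of_nonneg_left h8 (by linarith)
    push_cast at h5 l1 l2 l3 l6
    linarith

end Dt

end Pool.Agent.H15.Asc4
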