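import Mathlib
import Pool.Agent.H15.Asc.Cycle
import Pool.Agent.H15.Asc4.None2

set_option autoImplicit false

/-!
The sequence of local minima of a cycle of the `3x+1` map.
-/

namespace Pool.Agent.H15.Asc4

open Finset
open Pool.Agent.H15.Asc

variable {Z : Finset ℤ}

/-- one circuit -/
theorem blk_of_cir {q d : ℤ} {a : ℕ → ℤ} {p : ℕ} {N : ℝ} (h : Orb q d a p N) (hqd : q = 3)
    (hdd : d = 1) (hNd : N = 2900000000) {t k l : ℕ} (c : Cir a t k l) :
    Blk |(a t : ℝ)| |(a (t + k + l) : ℝ)| k l := by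
  subst hqd hdd hNd
  have hpow : ∀ j, j ≤ k → (2 : ℤ) ^ j * (a (t + j) + 1) = 3 ^ j * (a t + 1) := by
    intro j
    induction j with
    | zero => intro _; simp
    | succ j ih =>
      intro hj
      have h1 := ih (by omega)
      have h2 := h.odd_step (c.odd j (by omega))
      rw [show t + (j + 1) = t + j + 1 by ring]
      calc (2 : ℤ) ^ (j + 1) * (a (t + j + 1) + 1)
          = 2 ^ j * (2 * a (t + j + 1) + 2) := by ring
        _ = 3 * (2 ^ j * (a (t + j) + 1)) := by rw [h2]; ring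
        _ = _ := by rw [h1]; ring
  have hk := hpow k le_rfl
  have heven : ∀ j, j ≤ l → (2 : ℤ) ^ j * a (t + k + j) = a (t + k) := by
    intro j
    induction j with
    | zero => intro _; simp
    | succ j ih =>
      intro hj
      have h4 := ih (by omega)
      have h5 := h.even_step (c.even j (by omega))
      rw [show t + k + (j + 1) = t + k + j + 1 by ring, pow_succ]
      calc (2 : ℤ) ^ j * 2 * a (t + k + j + 1) = 2 ^ j * (2 * a (t + k + j + 1)) := by ring
        _ = _ := by rw [h5, h4]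
  have hl := heven l le_rfl
  have hex : (2 : ℤ) ^ (k + l) * a (t + k + l) = 3 ^ k * a t + (3 ^ k - 2 ^ k) := by
    rw [pow_add, mul_assoc, hl]
    linear_combination hk
  have hexR : (2 : ℝ) ^ (k + l) * (a (t + k + l) : ℝ) = 3 ^ k * (a t : ℝ) + (3 ^ k - 2 ^ k) := by
    exact_mod_cast hex
  have h32 : (2 : ℝ) ^ k ≤ 3 ^ k := pow_le_pow_left₀ (by norm_num) (by norm_num) k
  have h2p : (0 : ℝ) < 2 ^ k := by positivity
  have h3p : (0 : ℝ) < 3 ^ k := by positivity
  have e1 : |(2 : ℝ) ^ (k + l) * (a (t + k + l) : ℝ)| = 2 ^ (k + l) * |(a (t + k + l) : ℝ)| := by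
    rw [abs_mul, abs_of_pos (by positivity)]
  have e2 : |(3 : ℝ) ^ k * (a t : ℝ)| = 3 ^ k * |(a t : ℝ)| := by
    rw [abs_mul, abs_of_pos (by positivity)]
  have e3 : |(3 : ℝ) ^ k - 2 ^ k| = 3 ^ k - 2 ^ k := abs_of_nonneg (by linarith)
  have hb := h.big t
  have hb' := h.big (t + k + l)
  simp only [Int.cast_one, abs_one, mul_one] at hb hb'
  refine ⟨hb, hb', c.k1, c.l1, ?_, ?_, ?_⟩
  · have hdvd : (2 : ℤ) ^ k ∣ a t + 1 := by
      have h1 : (2 : ℤ) ^ k ∣ 3 ^ k * (a t + 1) := ⟨_, hk.symm⟩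
      have hcop : IsCoprime ((2 : ℤ) ^ k) (3 ^ k) := by
        apply IsCoprime.pow
        exact ⟨-1, 1, by norm_num⟩
      exact hcop.dvd_of_dvd_mul_left h1
    have hne : a t + 1 ≠ 0 := by
      intro h0
      have h2 : a t = -1 := by omega
      rw [h2] at hb
      norm_num at hb
    have h1 : (2 : ℤ) ^ k ≤ |a t + 1| := Int.le_of_dvd (abs_pos.2 hne) ((dvd_abs _ _).2 hdvd)
    have h3 : (2 : ℝ) ^ k ≤ |(a t : ℝ) + 1| := by exact_mod_cast h1
    refine h3.trans ((abs_add_le _ _).trans ?_)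
    norm_num
  · rw [← e1, hexR]
    refine (abs_add_le _ _).trans ?_
    rw [e2, e3]
    linarith
  · rw [← e1, hexR]
    have h4 := abs_sub_abs_le_abs_sub ((3 : ℝ) ^ k * (a t : ℝ)) (-(3 ^ k - 2 ^ k))
    rw [abs_neg, sub_neg_eq_add, e2, e3] at h4
    linarith

/-- **The chain of local minima.** -/
theorem chain_dt {q d : ℤ} {a : ℕ → ℤ} {p : ℕ} {N : ℝ} (h : Orb q d a p N) (hqd : q = 3)
    (hdd : d = 1) (hNd : N = 2900000000) (h0 : Lm a 0) (hmin : ∀ i, |a 1| ≤ |a i|) :
    ∃ k l : ℕ → ℕ, Dt (Nat.count (Lm a) p) (fun j => |(a (sq a j + 1) : ℝ)|) k l := by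
  have hblock : ∀ j, ∃ k l, Cir a (sq a j + 1) k l ∧ sq a j + 1 + k + l = sq a (j + 1) + 1 :=
    fun j => h.cir ((h.sq_mono h0) (Nat.lt_succ_self j)) (h.sq_mem h0 j)
    (h.sq_mem h0 (j + 1)) (fun i => h.sq_no h0 j i)
  choose k l hc he using hblock
  have hs0 := sq_zero h0
  have hsm := h.sq_count h0
  refine ⟨k, l, ⟨?_, ?_, ?_, ?_⟩⟩
  · rcases Nat.eq_zero_or_pos (Nat.count (Lm a) p) with h1 | h1
    · rw [h1, hs0] at hsm
      have := h.pos
      omega
    · exact h1
  · change |(a (sq a (Nat.count (Lm a) p) + 1) : ℝ)| = |(a (sq a 0 + 1) : ℝ)|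
    rw [hsm, hs0, show p + 1 = 0 + 1 + p by ring, h.per]
  · intro j
    change |(a (sq a 0 + 1) : ℝ)| ≤ |(a (sq a j + 1) : ℝ)|
    rw [hs0]
    exact_mod_cast hmin _
  · intro j
    have h1 := blk_of_cir h hqd hdd hNd (hc j)
    rw [he j] at h1
    exact h1

/-- **A cycle whose elements are all large**, as a chain of local minima. -/
theorem dt_of_cycle (hZ : IsCycle (T 3 1) Z) (hbigN : ∀ x ∈ Z, 2900000000 ≤ |x|) :
    ∃ (m : ℕ) (n : ℕ → ℝ) (k l : ℕ → ℕ), Dt m n k l ∧ up n m ≤ (ascents (T 3 1) Z).card := by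
  obtain ⟨N, hNd⟩ : ∃ N : ℝ, N = 2900000000 := ⟨_, rfl⟩
  obtain ⟨q, hqd⟩ : ∃ q : ℤ, q = 3 := ⟨_, rfl⟩
  obtain ⟨d, hdd⟩ : ∃ d : ℤ, d = 1 := ⟨_, rfl⟩
  have hq3 : 3 ≤ q := by omega
  have hq : q % 2 = 1 := by omega
  have hd : d % 2 = 1 := by omega
  have hN : 10 ≤ N := by rw [hNd]; norm_num
  have hbig : ∀ x ∈ Z, N * |(d : ℝ)| ≤ |(x : ℝ)| := by
    intro x hx
    rw [hNd, hdd]
    have := hbigN x hx
    have h1 : (2900000000 : ℝ) ≤ |(x : ℝ)| := by exact_mod_cast this
    simpa using h1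
  rw [← hqd, ← hdd] at hZ
  rw [← hqd, ← hdd]
  obtain ⟨x1, hx1, hmin⟩ := Finset.exists_min_image Z (fun x => |x|) hZ.nonempty
  obtain ⟨x0, hx0, h01⟩ := hZ.pred hx1
  have hd0 : d ≠ 0 := by omega
  have hd1 : 1 ≤ |d| := Int.one_le_abs hd0
  have hd1R : 1 ≤ |(d : ℝ)| := by exact_mod_cast hd1
  have hbig' : ∀ x ∈ Z, 10 * |d| ≤ |x| := by
    intro x hx
    have h1 := hbig x hx
    have h2 : 10 * |(d : ℝ)| ≤ N * |(d : ℝ)| := mul_le_mul_of_nonneg_right hN (by linarith)
    have h3 : 10 * |(d : ℝ)| ≤ |(x : ℝ)| := h2.trans h1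
    exact_mod_cast h3
  have hb1 := hbig' x1 hx1
  have hT1 := hmin _ (hZ.closed hx1 1)
  have hm0 := hmin _ hx0
  have e1 : (T q d)^[1] x1 = T q d x1 := rfl
  rw [e1] at hT1
  have hodd : x1 % 2 = 1 := by
    rcases par x1 with h | h
    · have := T_even (q := q) (d := d) h
      exfalso
      rcases abs_cases x1 with ⟨h1, h2⟩ | ⟨h1, h2⟩ <;>
        rcases abs_cases (T q d x1) with ⟨h3, h4⟩ | ⟨h3, h4⟩ <;> omega
    · exact h
  have hev : x0 % 2 = 0 := by
    rcases par x0 with h | h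
    · exact h
    · exfalso
      have h5 := T_odd hq hd h
      rw [h01] at h5
      have h6 : |q * x0| = q * |x0| := by rw [abs_mul, abs_of_pos (by omega)]
      have h7 : |q * x0| ≤ |2 * x1| + |d| := by
        have : q * x0 = 2 * x1 - d := by omega
        rw [this]; exact abs_sub _ _
      have h8 : |2 * x1| = 2 * |x1| := by rw [abs_mul]; rfl
      have h9 : 3 * |x0| ≤ q * |x0| := mul_le_mul_of_nonneg_right hq3 (abs_nonneg _)
      omega
  set a : ℕ → ℤ := fun i => (T q d)^[i] x0 with ha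
  set p := Function.minimalPeriod (T q d) x0 with hp
  obtain ⟨r, hr1, hr2⟩ := hZ.com
  have hperr : Function.IsPeriodicPt (T q d) r x0 := hr2 x0 hx0
  have hp1 : 1 ≤ p := hperr.minimalPeriod_pos hr1
  have hpp : (T q d)^[p] x0 = x0 := Function.isPeriodicPt_minimalPeriod (T q d) x0
  have hmem : ∀ i, a i ∈ Z := fun i => hZ.closed hx0 i
  have horb : Orb q d a p N :=
    { q3 := hq3
      qodd := hq
      dodd := hd
      step := fun i => Function.iterate_succ_apply' (T q d) i x0
      per := fun i => by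
        change (T q d)^[i + p] x0 = (T q d)^[i] x0
        rw [Function.iterate_add_apply, hpp]
      pos := hp1
      N10 := hN
      big := fun i => hbig _ (hmem i) }
  have ha1 : a 1 = x1 := h01
  have ha0 : a 0 = x0 := rfl
  have h0 : Lm a 0 := ⟨by rw [ha0]; exact hev, by rw [ha1]; exact hodd⟩
  obtain ⟨k, l, hdat⟩ := chain_dt horb hqd hdd hNd h0 (fun i => by rw [ha1]; exact hmin _ (hmem i))
  refine ⟨_, _, k, l, hdat, ?_⟩
  · -- the ascents
    unfold up
    refine Finset.card_le_card_of_injOn (fun j => a (sq a j + 1)) ?_ ?_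
    · intro j hj
      have hj' : j ∈ (range (Nat.count (Lm a) p)).filter
        (fun i => |(a (sq a i + 1) : ℝ)| < |(a (sq a (i + 1) + 1) : ℝ)|) := hj
      rw [mem_filter, mem_range] at hj'
      obtain ⟨hjm, hjlt⟩ := hj'
      have hmono := horb.sq_mono h0
      have hlt : sq a j < sq a (j + 1) := hmono (Nat.lt_succ_self j)
      have hm1 := horb.sq_mem h0 j
      have hm2 := horb.sq_mem h0 (j + 1)
      have hmin' : ∀ i, Lm a i → IsMin Z (a (i + 1)) := by
        intro i hi
        refine ⟨hmem _, hi.2, ?_⟩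
        rw [horb.even_step hi.1]
        exact hmem i
      have hshift : ∀ i, (T q d)^[i] (a (sq a j + 1)) = a (sq a j + 1 + i) := by
        intro i
        change (T q d)^[i] ((T q d)^[sq a j + 1] x0) = (T q d)^[sq a j + 1 + i] x0
        rw [← Function.iterate_add_apply, add_comm]
      change a (sq a j + 1) ∈ ascents (T q d) Z
      rw [mem_ascents]
      refine ⟨hmem _, hmin' _ hm1, sq a (j + 1) - sq a j, by omega, ?_, ?_, ?_⟩
      · rw [hshift, show sq a j + 1 + (sq a (j + 1) - sq a j) = sq a (j + 1) + 1 by omega]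
        exact hmin' _ hm2
      · intro i hi1 hi2 hi3
        rw [hshift] at hi3
        obtain ⟨h5, h6, h7⟩ := hi3
        have h8 : T q d (2 * a (sq a j + 1 + i)) = a (sq a j + 1 + i) := by
          have := T_even (q := q) (d := d) (x := 2 * a (sq a j + 1 + i)) (by omega)
          omega
        have h9 : T q d (a (sq a j + i)) = a (sq a j + 1 + i) := by
          rw [← horb.step, show sq a j + i + 1 = sq a j + 1 + i by ring]
        have h10 := hZ.inj h7 (hmem (sq a j + i)) (h8.trans h9.symm)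
        refine horb.sq_no h0 j (sq a j + i) (by omega) (by omega) ⟨by omega, ?_⟩
        rw [show sq a j + i + 1 = sq a j + 1 + i by ring]
        exact h6
      · rw [hshift, show sq a j + 1 + (sq a (j + 1) - sq a j) = sq a (j + 1) + 1 by omega]
        exact_mod_cast hjlt
    · intro i hi j hj hij
      have hmono := horb.sq_mono h0
      have hlt : ∀ j, j ∈ (range (Nat.count (Lm a) p)).filter
        (fun i => |(a (sq a i + 1) : ℝ)| < |(a (sq a (i + 1) + 1) : ℝ)|) → sq a j < p := by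
        intro j hj
        rw [mem_filter, mem_range] at hj
        have := hmono hj.1
        rwa [horb.sq_count h0] at this
      have h5 : 2 * a (sq a i + 1) = a (sq a i) := horb.even_step (horb.sq_mem h0 i).1
      have h6 : 2 * a (sq a j + 1) = a (sq a j) := horb.even_step (horb.sq_mem h0 j).1
      have h7 : a (sq a i) = a (sq a j) := by
        rw [← h5, ← h6]
        have : a (sq a i + 1) = a (sq a j + 1) := hij
        rw [this]
      have h8 := (Function.iterate_eq_iterate_iff_of_lt_minimalPeriod (hlt i hi) (hlt j hj)).1 h7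
      exact hmono.injective h8

/-- **A cycle with at most four ascents has a small element.** -/
theorem cycle_small (hZ : IsCycle (T 3 1) Z) (hM : (ascents (T 3 1) Z).card ≤ 4) :
    ∃ x ∈ Z, |x| < 2900000000 := by
  by_contra hcon
  push Not at hcon
  obtain ⟨m, n, k, l, hdt, hup⟩ := dt_of_cycle hZ hcon
  exact hdt.none (hup.trans hM)

end Pool.Agent.H15.Asc4
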